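import Pool.Agent.H51.PF.Defs
import Pool.Agent.H77.PLF.Gsx

/-!
# H51-PF-TYT: types at `S0` up to conjugation by elements of `T`

* `TqT S Q T φ φ'`: for every `v ∈ S` the restrictions to the decomposition group are conjugate by an element of `T` (independently for every `v`).
* `SYT L Q c T φ₁ Y`: as `SYG` with `TqT` in the place of `Teq`. `PLimT`: (L) for `SYT`. `PLvT p`: the P-level theorem of stage 2.
* `TG Q T`: the subgroup `T × 1` of `G`. `tsy`: `#SYT = #SYT (P) * #HS`. `tsf`, `tsl`: finite, asymptotic formula for `SYT`.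
* `plimT_of`: `PLim` implies `PLimT`.
-/

set_option autoImplicit false

open scoped NumberField
open IsDedekindDomain H38.ML Filter Topology
open scoped Classical

noncomputable section

namespace H51.PF

open H63.MA H38.BB H38.BG H57.PC H57.BRA H63.BU H77.PC3 H57.CC H38.AS H77.S0T H77.FLD H77.PLF

section defs

variable {K : Type} [Field K] [NumberField K] {Ω : Type} [Field Ω] [Algebra K Ω]
  {p N : ℕ} {ζ : K} {G : Type} [Group G]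

/-- conjugate by elements of `T` on the decomposition groups -/
def TqT (S : Finset (Pl K)) (Q : DP K Ω) (T : Subgroup G) (φ φ' : Gal(Ω/K) →* G) : Prop :=
  ∀ v ∈ S, ∃ g ∈ T, ∀ σ ∈ dec (K := K) (Q.P v), φ σ = g * φ' σ * g⁻¹

/-- the surjective homomorphisms to `G` of the type of `φ₁` at `S0` up to conjugation by `T`, typed outside `S0`, with the primes of norm product
at most `Y` -/
def SYT {D : RD0 K p ζ} (L : LDs D Ω) (Q : DP K Ω) (c : CL p N G) (T : Subgroup G)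
    (φ₁ : Gal(Ω/K) →* G) (Y : ℝ) : Set (Gal(Ω/K) →* G) :=
  {φ | H38.ML.FT φ ∧ Function.Surjective φ ∧ TqT D.S0 Q T φ φ₁ ∧
    (∀ v, v ∉ D.S0 → (∀ τ ∈ inr L v, φ τ = 1) ∨ ∃ i, TyC c L φ i v) ∧
    ∀ X : Finset (Pl K), (∀ v ∈ X, v ∉ D.S0 ∧ ¬ ∀ τ ∈ inr L v, φ τ = 1) →
      ∏ v ∈ X, (nm v : ℝ) ≤ Y}

theorem tqt_refl (S : Finset (Pl K)) (Q : DP K Ω) (T : Subgroup G) (φ : Gal(Ω/K) →* G) :
    TqT S Q T φ φ := fun _ _ => ⟨1, T.one_mem, fun σ _ => by rw [one_mul, inv_one, mul_one]⟩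

theorem tqt_symm {S : Finset (Pl K)} {Q : DP K Ω} {T : Subgroup G} {φ φ' : Gal(Ω/K) →* G}
    (h : TqT S Q T φ φ') : TqT S Q T φ' φ := by
  intro v hv
  obtain ⟨g, hg, h1⟩ := h v hv
  refine ⟨g⁻¹, T.inv_mem hg, fun σ hσ => ?_⟩
  rw [h1 σ hσ]
  group

theorem tqt_trans {S : Finset (Pl K)} {Q : DP K Ω} {T : Subgroup G}
    {φ φ' φ'' : Gal(Ω/K) →* G} (h : TqT S Q T φ φ') (h' : TqT S Q T φ' φ'') :
    TqT S Q T φ φ'' := by
  intro v hv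
  obtain ⟨g, hg, h1⟩ := h v hv
  obtain ⟨g', hg', h2⟩ := h' v hv
  refine ⟨g * g', T.mul_mem hg hg', fun σ hσ => ?_⟩
  rw [h1 σ hσ, h2 σ hσ]
  group

theorem tqt_teq {S : Finset (Pl K)} {Q : DP K Ω} (T : Subgroup G) {φ φ' : Gal(Ω/K) →* G}
    (h : Teq S Q φ φ') : TqT S Q T φ φ' := fun v hv =>
  ⟨1, T.one_mem, fun σ hσ => by rw [one_mul, inv_one, mul_one, h v hv σ hσ]⟩

end defs

/-- (L) for types at `S0` up to conjugation by `T` -/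
def PLimT (p M : ℕ) {N : ℕ} {P : Type} [Group P] (c : CL p N P) (T : Subgroup P) : Prop :=
  ∀ (K : IntermediateField ℚ QBar) [NumberField K] (ζ : K) (_ : IsPrimitiveRoot ζ p) (z : K)
    (_ : IsPrimitiveRoot z (p ^ M)) (D : RD K p ζ) (L : LDs D.toRD0 QBar) (Q : DP K QBar)
    (_ : LQ L Q) (φ₁ : Gal(QBar/K) →* P) (_ : H38.ML.FT φ₁),
    ∃ L₀ : ℝ, Tendsto (fun Y : ℝ => ((SYT L Q c T φ₁ Y).ncard : ℝ) /
      (Y * Real.log Y ^ (N - 1))) atTop (𝓝 L₀)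

/-- the P-level theorem of stage 2 -/
def PLvT (p : ℕ) : Prop :=
  ∀ (P : Type) [Group P] [Finite P] (_ : IsPGroup p P),
    ∃ M : ℕ, 2 ≤ M ∧ ∀ (N : ℕ) (c : CL p N P) (T : Subgroup P) (_ : 1 ≤ N)
      (_ : ∀ i, c.g i ∈ T) (_ : Ser c T),
      PLimT p M c T ∧ PUb p M c ∧ PPos2 p M c

section grp

variable {p N : ℕ} {G P H : Type} [Group G] [Group P] [Group H]

/-- the subgroup `T × 1` -/
def TG (Q : GX p N G P H) (T : Subgroup P) : Subgroup G := T.comap Q.pr ⊓ Q.ph.ker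

theorem tg_mem (Q : GX p N G P H) (T : Subgroup P) (g : G) :
    g ∈ TG Q T ↔ Q.pr g ∈ T ∧ Q.ph g = 1 := Iff.rfl

end grp

section loc

variable {K : Type} [Field K] [NumberField K] {Ω : Type} [Field Ω] [Algebra K Ω]
  [IsAlgClosure K Ω] {p N : ℕ} {ζ : K} {G P H : Type} [Group G] [Group P] [Group H]

omit [IsAlgClosure K Ω] in
theorem gx_tqt [Finite G] (hp : p.Prime) (Q : GX p N G P H) (hP : IsPGroup p P)
    (T : Subgroup P) (S : Finset (Pl K)) (Q' : DP K Ω) (φ φ' : Gal(Ω/K) →* G) :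
    TqT S Q' (TG Q T) φ φ' ↔
      TqT S Q' T (Q.pr.comp φ) (Q.pr.comp φ') ∧ Teq S Q' (Q.ph.comp φ) (Q.ph.comp φ') := by
  constructor
  · intro h
    refine ⟨fun v hv => ?_, fun v hv σ hσ => ?_⟩
    · obtain ⟨g, hg, h1⟩ := h v hv
      refine ⟨Q.pr g, hg.1, fun σ hσ => ?_⟩
      rw [MonoidHom.comp_apply, h1 σ hσ, map_mul, map_mul, map_inv, MonoidHom.comp_apply]
    · obtain ⟨g, hg, h1⟩ := h v hv
      have h2 : Q.ph g = 1 := hg.2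
      rw [MonoidHom.comp_apply, h1 σ hσ, map_mul, map_mul, map_inv, h2, MonoidHom.comp_apply,
        one_mul, inv_one, mul_one]
  · rintro ⟨h1, h2⟩ v hv
    obtain ⟨t, ht, h3⟩ := h1 v hv
    obtain ⟨g, hg1, hg2⟩ := gx_sur hp Q hP t 1
    refine ⟨g, (tg_mem Q T g).2 ⟨by rw [hg1]; exact ht, hg2⟩, fun σ hσ => Q.inj _ _ ?_ ?_⟩
    · rw [map_mul, map_mul, map_inv, hg1]
      exact h3 σ hσ
    · rw [map_mul, map_mul, map_inv, hg2, one_mul, inv_one, mul_one]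
      exact h2 v hv σ hσ

theorem tsy_mem [Finite G] (hp : p.Prime) (Q : GX p N G P H)
    (hP : IsPGroup p P) (T : Subgroup P) {D : RD0 K p ζ} (L : LDs D Ω) (Q' : DP K Ω)
    (φ₁ φ : Gal(Ω/K) →* G) (hφ : H38.ML.FT φ) (Y : ℝ) :
    φ ∈ SYT L Q' Q.cl (TG Q T) φ₁ Y ↔ Q.pr.comp φ ∈ SYT L Q' Q.cP T (Q.pr.comp φ₁) Y ∧
      Q.ph.comp φ ∈ HS L Q' (Q.ph.comp φ₁) := by
  constructor
  · rintro ⟨-, h2, h3, h4, h5⟩
    obtain ⟨h6, h7⟩ := (gx_tqt hp Q hP T D.S0 Q' φ φ₁).1 h3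
    have hun : ∀ v, v ∉ D.S0 → ∀ τ ∈ inr L v, Q.ph (φ τ) = 1 := by
      intro v hv
      rcases h4 v hv with h | ⟨i, hi⟩
      · exact ((gx_un Q L φ v).1 h).2
      · exact ((gx_ty hp Q hP L φ i v).1 hi).2
    refine ⟨⟨ft_comp _ _ hφ, Q.prs.comp h2, h6, fun v hv => ?_, fun X hX => ?_⟩,
      ft_comp _ _ hφ, Q.phs.comp h2, h7, hun⟩
    · rcases h4 v hv with h | ⟨i, hi⟩
      · exact Or.inl ((gx_un Q L φ v).1 h).1
      · exact Or.inr ⟨i, ((gx_ty hp Q hP L φ i v).1 hi).1⟩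
    · refine h5 X fun v hv => ⟨(hX v hv).1, fun h => (hX v hv).2 ?_⟩
      exact ((gx_un Q L φ v).1 h).1
  · rintro ⟨⟨-, g2, g3, g4, g5⟩, -, g6, g7, g8⟩
    refine ⟨hφ, gx_srj hp Q hP φ g2 g6, (gx_tqt hp Q hP T D.S0 Q' φ φ₁).2 ⟨g3, g7⟩,
      fun v hv => ?_, fun X hX => ?_⟩
    · rcases g4 v hv with h | ⟨i, hi⟩
      · exact Or.inl ((gx_un Q L φ v).2 ⟨h, g8 v hv⟩)
      · exact Or.inr ⟨i, (gx_ty hp Q hP L φ i v).2 ⟨hi, g8 v hv⟩⟩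
    · refine g5 X fun v hv => ⟨(hX v hv).1, fun h => (hX v hv).2 ?_⟩
      exact (gx_un Q L φ v).2 ⟨h, g8 v (hX v hv).1⟩

theorem tsy [Finite G] (hp : p.Prime) (Q : GX p N G P H)
    (hP : IsPGroup p P) (T : Subgroup P) {D : RD0 K p ζ} (L : LDs D Ω) (Q' : DP K Ω)
    (φ₁ : Gal(Ω/K) →* G) (Y : ℝ) : (SYT L Q' Q.cl (TG Q T) φ₁ Y).ncard =
      (SYT L Q' Q.cP T (Q.pr.comp φ₁) Y).ncard * (HS L Q' (Q.ph.comp φ₁)).ncard ∧
    ((SYT L Q' Q.cP T (Q.pr.comp φ₁) Y).Finite → (HS L Q' (Q.ph.comp φ₁)).Finite →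
      (SYT L Q' Q.cl (TG Q T) φ₁ Y).Finite) := by
  have hinj : Set.InjOn (fun φ : Gal(Ω/K) →* G => (Q.pr.comp φ, Q.ph.comp φ))
      (SYT L Q' Q.cl (TG Q T) φ₁ Y) := by
    intro φ _ φ' _ h
    have h1 : Q.pr.comp φ = Q.pr.comp φ' := congrArg Prod.fst h
    have h2 : Q.ph.comp φ = Q.ph.comp φ' := congrArg Prod.snd h
    ext σ
    exact Q.inj _ _ (DFunLike.congr_fun h1 σ) (DFunLike.congr_fun h2 σ)
  have himg : (fun φ : Gal(Ω/K) →* G => (Q.pr.comp φ, Q.ph.comp φ)) ''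
      (SYT L Q' Q.cl (TG Q T) φ₁ Y) =
      (SYT L Q' Q.cP T (Q.pr.comp φ₁) Y) ×ˢ (HS L Q' (Q.ph.comp φ₁)) := by
    ext ⟨α, β⟩
    rw [Set.mem_image, Set.mem_prod]
    constructor
    · rintro ⟨φ, hφ, h⟩
      have h1 : Q.pr.comp φ = α := congrArg Prod.fst h
      have h2 : Q.ph.comp φ = β := congrArg Prod.snd h
      have h3 := (tsy_mem hp Q hP T L Q' φ₁ φ hφ.1 Y).1 hφ
      rw [h1, h2] at h3
      exact h3
    · rintro ⟨h1, h2⟩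
      obtain ⟨φ, h3, h4, h5⟩ := gx_pair hp Q hP α β h1.1 h2.1
      refine ⟨φ, (tsy_mem hp Q hP T L Q' φ₁ φ h3 Y).2 ⟨by rw [h4]; exact h1,
        by rw [h5]; exact h2⟩, Prod.ext h4 h5⟩
  constructor
  · rw [← Set.ncard_prod, ← himg, hinj.ncard_image]
  · intro h1 h2
    refine Set.Finite.of_finite_image ?_ hinj
    rw [himg]
    exact h1.prod h2

omit [IsAlgClosure K Ω] in
theorem syt_sub {P : Type} [Group P] {D : RD0 K p ζ} (L : LDs D Ω) (Q' : DP K Ω)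
    (c : CL p N P) (T : Subgroup P) (φ₁ : Gal(Ω/K) →* P) (Y : ℝ) :
    SYT L Q' c T φ₁ Y ⊆ PU L c ∅ Y := by
  rintro φ ⟨h1, h2, -, h4, h5⟩
  exact ⟨h1, h2, fun v hv _ => h4 v hv, fun X hX => h5 X fun v hv => ⟨(hX v hv).1, (hX v hv).2.2⟩⟩

/-- a set inside `PU` is finite -/
theorem pu_fin {K : IntermediateField ℚ QBar} [NumberField K] {ζ : K}
    (hζ : IsPrimitiveRoot ζ p) {M : ℕ} {z₂ : K}
    (hz2 : IsPrimitiveRoot z₂ (p ^ M)) {c : CL p N P} (hU : PUb p M c)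
    (D : RD K p ζ) (L : LDs D.toRD0 QBar) (Y : ℝ) : (PU L c ∅ Y).Finite := by
  obtain ⟨C, -, h⟩ := hU K ζ hζ z₂ hz2 D L 1 one_pos
  refine Set.Finite.subset ?_ (pu_mono L c ∅ (le_max_left Y 1))
  by_contra hinf
  obtain ⟨F, hF1, hF2⟩ := Set.Infinite.exists_subset_card_eq hinf
    (⌊C * nr (∅ : Finset (Pl K)) ^ (1 : ℝ) * max Y 1 * (1 + Real.log (max Y 1)) ^ (N - 1)⌋₊ + 1)
  have h2 := h ∅ (max Y 1) (le_max_right _ _) F fun ψ hψ => hF1 hψ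
  rw [hF2] at h2
  push_cast at h2
  have h3 := Nat.lt_floor_add_one
    (C * nr (∅ : Finset (Pl K)) ^ (1 : ℝ) * max Y 1 * (1 + Real.log (max Y 1)) ^ (N - 1))
  linarith

/-- `SYT` is finite -/
theorem tsf {K : IntermediateField ℚ QBar} [NumberField K] {ζ : K}
    [Finite G] (hp : p.Prime) (hζ : IsPrimitiveRoot ζ p) {M : ℕ} {z₂ : K}
    (hz2 : IsPrimitiveRoot z₂ (p ^ M))
    (hnil : Group.IsNilpotent G) (Q : GX p N G P H) (hP : IsPGroup p P) (T : Subgroup P)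
    (hU : PUb p M Q.cP) (D : RD K p ζ) (L : LDs D.toRD0 QBar) (Q' : DP K QBar) (z : K)
    (hz : IsPrimitiveRoot z (Nat.card G))
    (hS : ∀ v : Pl K, ((Nat.card G : ℕ) : 𝓞 K) ∈ v.asIdeal → v ∈ D.S0)
    (φ₁ : Gal(QBar/K) →* G) (Y : ℝ) : (SYT L Q' Q.cl (TG Q T) φ₁ Y).Finite := by
  refine (tsy hp Q hP T L Q' φ₁ Y).2 ?_ ?_
  · exact (pu_fin hζ hz2 hU D L Y).subset (syt_sub L Q' Q.cP T _ Y)
  · exact (xhs_fin hnil Q L z hz hS).subset fun β hβ => ⟨hβ.1, hβ.2.2.2⟩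

/-- the asymptotic formula for `SYT` -/
theorem tsl {K : IntermediateField ℚ QBar} [NumberField K] {ζ : K}
    [Finite G] (hp : p.Prime) (hζ : IsPrimitiveRoot ζ p) {M : ℕ} {z₂ : K}
    (hz2 : IsPrimitiveRoot z₂ (p ^ M)) (Q : GX p N G P H) (hP : IsPGroup p P)
    (T : Subgroup P) (hL : PLimT p M Q.cP T) (D : RD K p ζ) (L : LDs D.toRD0 QBar)
    (Q' : DP K QBar) (hLQ : LQ L Q') (φ₁ : Gal(QBar/K) →* G) (h₁ : H38.ML.FT φ₁) :
    ∃ L₀ : ℝ, Tendsto (fun Y : ℝ => ((SYT L Q' Q.cl (TG Q T) φ₁ Y).ncard : ℝ) /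
      (Y * Real.log Y ^ (N - 1))) atTop (𝓝 L₀) := by
  obtain ⟨l, hl⟩ := hL K ζ hζ z₂ hz2 D L Q' hLQ (Q.pr.comp φ₁) (ft_comp _ _ h₁)
  refine ⟨l * ((HS L Q' (Q.ph.comp φ₁)).ncard : ℝ),
    (hl.mul_const ((HS L Q' (Q.ph.comp φ₁)).ncard : ℝ)).congr fun Y => ?_⟩
  rw [(tsy hp Q hP T L Q' φ₁ Y).1]
  push_cast
  ring

/-- ramified of no type is invariant under conjugation on the decomposition group -/
theorem nec_tqt {D : RD0 K p ζ} (L : LDs D Ω) (Q : DP K Ω) (hL : LQ L Q)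
    (c : CL p N G) (S : Finset (Pl K)) (T : Subgroup G) (φ φ' : Gal(Ω/K) →* G)
    (h : TqT S Q T φ φ') (v : Pl K) (hv : v ∈ S) : NeC c L φ v ↔ NeC c L φ' v := by
  have h1 : ∀ ψ ψ' : Gal(Ω/K) →* G, TqT S Q T ψ ψ' → NeC c L ψ v → NeC c L ψ' v := by
    rintro ψ ψ' h ⟨⟨hv0, τ, hτ, hne⟩, hty⟩
    obtain ⟨g, -, hs⟩ := h v hv
    obtain ⟨hd1, hd2⟩ := esa_dec L Q hL v
    refine ⟨⟨hv0, τ, hτ, fun h1 => hne ?_⟩, ?_⟩
    · rw [hs τ (hd1 hτ), h1, mul_one, mul_inv_cancel]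
    · rintro i ⟨hg, hc, he⟩
      refine hty i ⟨hg, ?_, fun σ hσ => ?_⟩
      · rw [hs _ (hd2 hv0)]
        exact (isConj_iff.2 ⟨g, rfl⟩ : IsConj _ _).symm.trans hc
      · rw [hs σ (hd1 hσ), conj_pow, he σ hσ, mul_one, mul_inv_cancel]
  exact ⟨h1 φ φ' h, h1 φ' φ (tqt_symm h)⟩

end loc

end H51.PF
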