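import Pool.Agent.H51.PF.Defs
import Pool.Agent.H77.PLF.Fix
import Pool.Agent.H38.ML.Prime

/-!
# H51-PF-FRA: the frame of stage 2 (MP_b39724_nt, all classes)

* `fin_lo2`: the lower bound. `exists_gx2`: the projections of a nilpotent group, given classes of elements of order `p` (not all).
* `Asy`, `Li`, `SerG`: the asymptotic formula over one `K`, the elements of least index, full series. `mone_of`: `-1` is a `p`-th power.
The final theorem is in Fit.lean.
-/

set_option autoImplicit false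

open scoped NumberField
open IsDedekindDomain Filter Topology H38.ML
open scoped Classical

noncomputable section

namespace H51.PF

open H63.MA H38.BB H38.BG H57.PC H57.BRA H63.BU H77.PC3 H57.CC H38.AS H77.S0T H77.AB H77.GN
  H77.UX H77.FLD H77.PLF

section main

variable {n : ℕ} (G : Subgroup (Equiv.Perm (Fin n))) (K : IntermediateField ℚ QBar)
  [NumberField K]

theorem fin_lo2 (hn : 2 ≤ n) (hG : MulAction.IsPretransitive G (Fin n)) {p : ℕ} [NeZero p]
    (hp : p.Prime) (hp2 : MOne p K) {ζ : K} (hζ : IsPrimitiveRoot ζ p) {M : ℕ} {z₂ : K}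
    (hz2 : IsPrimitiveRoot z₂ (p ^ M)) {N : ℕ} {P H : Type} [Group P] [Group H]
    (Q : GX p N G P H) (hco : Nat.Coprime (Nat.card P) (Nat.card H)) (hPo : PPos2 p M Q.cP)
    (hI : ∀ h : G, (h ≠ 1 ∧ ind (h : Equiv.Perm (Fin n)) = indG G) ↔
      ∃ i, IsConj h (Q.cl.g i))
    (φ₀ : Gal(QBar/K) →* G) (hs : Function.Surjective φ₀) (hφ₀ : FT φ₀) :
    ∃ c B₀ : ℝ, 0 < c ∧ ∀ B : ℝ, B₀ ≤ B →
      ((⌈c * B ^ (1 / (indG G : ℝ)) * Real.log B ^ (N - 1)⌉₊ : ℕ) : ℕ∞) ≤
        Spec.nK K QBar G B := by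
  obtain ⟨ha, -, -, -, -⟩ := pidx_pos hn G hG
  obtain ⟨D, hD, hun⟩ := ard (Ω := QBar) hp hp2 hζ φ₀ hφ₀ (Nat.card G) Nat.card_pos
  obtain ⟨L⟩ := exists_LDs QBar hp hζ D.toRD0
  refine cfl hn G hG ha K D.toRD0 L Q.cl.g (fun h i hi => ((hI h).2 ⟨i, hi⟩).2) ?_
  exact clox L Q hco (Q.ph.comp φ₀) (ft_comp _ _ hφ₀) (Q.phs.comp hs)
    (fun v hv τ hτ => by
      rw [MonoidHom.comp_apply, hun L v hv τ hτ, map_one])
    (hPo K ζ hζ z₂ hz2 D L (Q.pr.comp φ₀) (ft_comp _ _ hφ₀) (Q.prs.comp hs)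
      fun v hv τ hτ => by rw [MonoidHom.comp_apply, hun L v hv τ hτ, map_one])

end main

/-- `-1` is a `p`-th power if there are roots of unity of order `p ^ 2` -/
theorem mone_of {p M : ℕ} (hp : p.Prime) (hM : 2 ≤ M) {K : Type} [Field K] {z : K}
    (hz : IsPrimitiveRoot z (p ^ M)) : MOne p K := by
  rcases hp.eq_two_or_odd' with h | h
  · subst h
    have h1 : IsPrimitiveRoot (z ^ 2 ^ (M - 1)) 2 := by
      refine hz.pow (pow_pos two_pos _) ?_
      rw [← pow_succ]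
      congr 1
      omega
    refine ⟨z ^ 2 ^ (M - 2), ?_⟩
    rw [← h1.eq_neg_one_of_two_right, ← pow_mul, ← pow_succ]
    congr 2
    omega
  · exact ⟨-1, h.neg_one_pow⟩

theorem exists_gx2 {p : ℕ} (hp : p.Prime) {G : Type} [Group G] [Finite G]
    (hnil : Group.IsNilpotent G) (hpG : p ∣ Nat.card G) (S : Sylow p G)
    [hSn : (S : Subgroup G).Normal] {N : ℕ}
    (g : Fin N → G) (pow : ∀ i, g i ^ p = 1) (ne : ∀ i, g i ≠ 1)
    (uni : ∀ i j, IsConj (g i) (g j) → i = j) (hgS : ∀ i, g i ∈ (S : Subgroup G)) :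
    ∃ Q : GX p N G S (G ⧸ (S : Subgroup G)), Q.cl.g = g ∧ ∀ i, (Q.cP.g i : G) = g i := by
  have : Fact p.Prime := ⟨hp⟩
  obtain ⟨f, hf, hk⟩ := nil_split hnil hp hpG S
  -- conjugation by elements of `G` is conjugation by elements of `S`
  have hcj : ∀ (y : G) (x : S), y * (x : G) * y⁻¹ = (f y : G) * x * (f y : G)⁻¹ := by
    intro y x
    have e1 : f ((f y : G)⁻¹ * y) = 1 := by
      rw [map_mul, map_inv, hf (f y), inv_mul_cancel]
    obtain ⟨k, hk'⟩ := S.isPGroup' x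
    have e2 : (x : G) * ((f y : G)⁻¹ * y) = ((f y : G)⁻¹ * y) * x :=
      nil_comm hnil hp ⟨k, congrArg Subtype.val hk'⟩ (hk _ e1)
    calc y * (x : G) * y⁻¹ = (f y : G) * (((f y : G)⁻¹ * y) * x) * y⁻¹ := by group
      _ = (f y : G) * (x * ((f y : G)⁻¹ * y)) * y⁻¹ := by rw [e2]
      _ = _ := by group
  have hconj' : ∀ x y : S, IsConj x y → IsConj (x : G) (y : G) := fun x y h =>
    (S : Subgroup G).subtype.map_isConj h
  refine ⟨{
    pr := f
    prs := fun x => ⟨x, hf x⟩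
    ph := QuotientGroup.mk' (S : Subgroup G)
    phs := QuotientGroup.mk'_surjective _
    inj := fun x y h1 h2 => by
      have h3 : x⁻¹ * y ∈ (S : Subgroup G) := QuotientGroup.eq.1 h2
      have h4 : f (x⁻¹ * y) = 1 := by
        rw [map_mul, map_inv, h1, inv_mul_cancel]
      have h5 := hf ⟨x⁻¹ * y, h3⟩
      change f (x⁻¹ * y) = _ at h5
      rw [h4] at h5
      have h6 := congrArg Subtype.val h5
      exact inv_mul_eq_one.1 h6.symm
    hH := fun h hh => by
      have h1 : orderOf h ∣ p := orderOf_dvd_of_pow_eq_one hh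
      have h2 : orderOf h ∣ Nat.card (G ⧸ (S : Subgroup G)) := orderOf_dvd_natCard h
      have h3 : ¬ p ∣ Nat.card (G ⧸ (S : Subgroup G)) := by
        have h5 := S.not_dvd_index
        rwa [Subgroup.index] at h5
      rcases (Nat.dvd_prime hp).1 h1 with h5 | h5
      · exact orderOf_eq_one_iff.1 h5
      · rw [h5] at h2
        exact absurd h2 h3
    cl := ⟨g, pow, ne, uni⟩
    cP := ⟨fun i => ⟨g i, hgS i⟩, fun i => Subtype.ext (pow i),
      fun i h => ne i (congrArg Subtype.val h), fun i j h => uni i j (hconj' _ _ h)⟩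
    hcl := fun i => hf ⟨g i, hgS i⟩ }, rfl, fun i => rfl⟩

/-- the asymptotic formula over `K` -/
def Asy {n : ℕ} (G : Subgroup (Equiv.Perm (Fin n)))
    (K : IntermediateField ℚ (AlgebraicClosure ℚ)) [NumberField K] : Prop :=
  ∃ C : ℝ, 0 < C ∧ ∃ k : ℝ → ℕ,
    (∀ B : ℝ, Spec.nK K (AlgebraicClosure ℚ) G B = (k B : ℕ∞)) ∧
    Tendsto (fun B : ℝ => (k B : ℝ) / (B ^ (1 / (Spec.indG G : ℝ)) *
      Real.log B ^ (Spec.betaAll K (AlgebraicClosure ℚ) G - 1))) atTop (𝓝 C)

/-- the elements of least index -/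
def Li {n : ℕ} (G : Subgroup (Equiv.Perm (Fin n))) : Set G :=
  {h : G | h ≠ 1 ∧ Spec.ind (h : Equiv.Perm (Fin n)) = Spec.indG G}

/-- full series of the subgroup generated by the elements of least index -/
def SerG {n : ℕ} (G : Subgroup (Equiv.Perm (Fin n))) (p : ℕ) : Prop :=
  ∃ (r : ℕ) (B : ℕ → Subgroup G), B 0 = ⊥ ∧ B r = Subgroup.closure (Li G) ∧
    (∀ i, (B i).Normal) ∧
    ∀ i, i < r → B i ≤ B (i + 1) ∧ Nat.card (B (i + 1)) = p * Nat.card (B i) ∧
      ∃ h ∈ Li G, h ∈ B (i + 1) ∧ h ∉ B i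

theorem le_syl {p : ℕ} (hp : p.Prime) {G : Type} [Group G] [Finite G] (S : Sylow p G)
    (hSn : (S : Subgroup G).Normal) (T : Subgroup G) (hT : IsPGroup p T) :
    T ≤ (S : Subgroup G) := by
  have : Fact p.Prime := ⟨hp⟩
  obtain ⟨Q, hQ⟩ := hT.exists_le_sylow
  have h2 : Q = S := by
    have := Sylow.unique_of_normal S hSn
    exact Subsingleton.elim _ _
  rw [← h2]
  exact hQ

/-- the subgroup with a full series is a `p`-group -/
theorem serg_pgroup {n : ℕ} {G : Subgroup (Equiv.Perm (Fin n))} {p : ℕ} (hser : SerG G p) :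
    IsPGroup p (Subgroup.closure (Li G)) := by
  obtain ⟨r, B, h0, hr, -, hs⟩ := hser
  have h : ∀ k, k ≤ r → Nat.card (B k) = p ^ k := by
    intro k
    induction k with
    | zero =>
      intro _
      rw [h0]
      simp
    | succ k ih =>
      intro hk
      rw [(hs k (by omega)).2.1, ih (by omega), pow_succ, mul_comm]
  rw [← hr]
  exact IsPGroup.of_card (h r le_rfl)

/-- the elements of least index have order `p` -/
theorem li_pow {n : ℕ} {G : Subgroup (Equiv.Perm (Fin n))} {p : ℕ} (hp : p.Prime)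
    (hser : SerG G p) (h : G) (hh : h ∈ Li G) : h ^ p = 1 := by
  have h1 : (orderOf h).Prime := prime_of_least G h hh.1 hh.2
  obtain ⟨k, hk⟩ := serg_pgroup hser ⟨h, Subgroup.subset_closure hh⟩
  have h2 : h ^ p ^ k = 1 := congrArg Subtype.val hk
  have h3 : orderOf h ∣ p ^ k := orderOf_dvd_of_pow_eq_one h2
  have h4 : orderOf h = p := (Nat.prime_dvd_prime_iff_eq h1 hp).1 (h1.dvd_of_dvd_pow h3)
  rw [← h4]
  exact pow_orderOf_eq_one h

end H51.PF
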