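import Pool.Agent.H77.FLD.Esc
import Pool.Agent.H51.PF.Tyt
import Pool.Agent.H48.KV.Dsc
import Pool.Agent.H38.AS.ESp

/-!
# H51-PF-ESP: the number of homomorphisms with given untyped primes (as espx in H77/PLF/Espx.lean), types at `S0` up to conjugation by `T`
-/

set_option autoImplicit false

open scoped NumberField
open IsDedekindDomain Filter Topology H38.ML
open scoped Classical

noncomputable section

namespace H51.PF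

open H63.MA H38.BB H38.BG H57.PC H57.BRA H63.BU H77.PC3 H57.CC H38.AS H77.S0T H77.FLD H77.PLF

theorem espt {n : ℕ} (hn : 2 ≤ n) (G : Subgroup (Equiv.Perm (Fin n)))
    (hG : MulAction.IsPretransitive G (Fin n)) (hnil : Group.IsNilpotent G)
    {p : ℕ} [NeZero p] (hp : p.Prime) (K : IntermediateField ℚ QBar)
    [NumberField K] (hp2 : MOne p K) {ζ : K} (hζ : IsPrimitiveRoot ζ p) {M : ℕ} {z₂ : K} (hz2 : IsPrimitiveRoot z₂ (p ^ M)) {N : ℕ}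
    {P H : Type} [Group P] [Group H]
    (Q : GX p N G P H) (hP : IsPGroup p P) (T : Subgroup P) (hU : PUb p M Q.cP)
    (hLm : PLimT p M Q.cP T)
    (hI : ∀ (h : G) (i : Fin N), IsConj h (Q.cl.g i) →
      ind (h : Equiv.Perm (Fin n)) = indG G)
    (ha : 0 < indG G) (z : K) (hz : IsPrimitiveRoot z (Nat.card G)) (D : RD K p ζ)
    (hD : ∀ v : Pl K, ((n.factorial : ℕ) : 𝓞 K) ∈ v.asIdeal → v ∈ D.S0)
    (L : LDs D.toRD0 QBar) (Q' : DP K QBar) (hLQ : LQ L Q') (i₀ : Fin n)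
    (E : Finset (Pl K)) :
    (∀ B, (NE3 G K L Q.cl i₀ E B).Finite) ∧ ∃ c : ℝ, Tendsto (fun B : ℝ =>
      ((NE3 G K L Q.cl i₀ E B).ncard : ℝ) / (B ^ (1 / (indG G : ℝ)) * Real.log B ^ (N - 1)))
        atTop (𝓝 c) := by
  have haR : (0 : ℝ) < (indG G : ℝ) := by exact_mod_cast ha
  by_cases hE : ∃ v ∈ E, v ∈ D.S0
  · -- no homomorphisms
    obtain ⟨v, hvE, hvS⟩ := hE
    have hemp : ∀ B, NE3 G K L Q.cl i₀ E B = ∅ := by
      intro B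
      rw [Set.eq_empty_iff_forall_notMem]
      rintro φ ⟨-, -, -, h⟩
      exact ((h v).1 hvE).1.1 hvS
    refine ⟨fun B => by rw [hemp]; exact Set.finite_empty, 0, ?_⟩
    refine tendsto_const_nhds.congr fun B => ?_
    rw [hemp, Set.ncard_empty, Nat.cast_zero, zero_div]
  push Not at hE
  obtain ⟨D', hD'⟩ := exists_RD_of K hp hp2 hζ (D.S0 ∪ E)
  have hDD : ∀ v ∈ D.S0, v ∈ D'.S0 := fun v hv => hD' v (Finset.mem_union_left _ hv)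
  have hED : ∀ v ∈ E, v ∈ D'.S0 := fun v hv => hD' v (Finset.mem_union_right _ hv)
  have hD2 : ∀ v : Pl K, ((n.factorial : ℕ) : 𝓞 K) ∈ v.asIdeal → v ∈ D'.S0 := fun v hv =>
    hDD v (hD v hv)
  have hS2 : ∀ v : Pl K, ((Nat.card G : ℕ) : 𝓞 K) ∈ v.asIdeal → v ∈ D'.S0 := fun v hv => by
    apply hD2 v
    obtain ⟨k, hk⟩ := esp_dvd G
    rw [hk]
    push_cast
    exact Ideal.mul_mem_right _ _ hv
  obtain ⟨L', hL'⟩ := lds_of hp hζ D'.toRD0 Q'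
  obtain ⟨d, hd1, hd2⟩ := H48.KV.dsc_form hn G hG K D'.S0 hD2 Q' i₀
  obtain ⟨R₀, hR1, hR2⟩ := xty hp hp2 hζ hnil Q hP D'.toRD0 L' Q' z hz hS2
  have hr : ∀ φ : Gal(QBar/K) →* G, TqT D'.S0 Q' (TG Q T) φ φ := fun φ => tqt_refl _ _ _ _
  have hs : ∀ φ φ' : Gal(QBar/K) →* G, TqT D'.S0 Q' (TG Q T) φ φ' →
      TqT D'.S0 Q' (TG Q T) φ' φ := fun _ _ h => tqt_symm h
  have ht : ∀ φ φ' φ'' : Gal(QBar/K) →* G, TqT D'.S0 Q' (TG Q T) φ φ' →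
      TqT D'.S0 Q' (TG Q T) φ' φ'' → TqT D'.S0 Q' (TG Q T) φ φ'' := fun _ _ _ h h' =>
    tqt_trans h h'
  obtain ⟨R, hRR, hR3, hR4⟩ := cfin_reps
    (fun φ φ' : Gal(QBar/K) →* G => TqT D'.S0 Q' (TG Q T) φ φ') hr hs ht R₀
  have hRmQ : ∀ (φ : Gal(QBar/K) →* G) (v : Pl K),
      Rm L' φ v ↔ v ∉ D'.S0 ∧ v ∈ H38.WM.Rm Q' φ := by
    intro φ v
    constructor
    · rintro ⟨hv, τ, hτ, h⟩
      refine ⟨hv, τ, ?_, h⟩
      rw [inr, dif_pos hv, hL' v hv] at hτ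
      exact hτ
    · rintro ⟨hv, τ, hτ, h⟩
      refine ⟨hv, τ, ?_, h⟩
      rw [inr, dif_pos hv, hL' v hv]
      exact hτ
  -- typed homomorphisms
  have hdok : ∀ φ : Gal(QBar/K) →* G, FT φ → (∀ v, Rm L' φ v → ∃ i, TyC Q.cl L' φ i v) →
      ∀ v, v ∉ D'.S0 → v ∈ H38.WM.Rm Q' φ →
        n - orbs ((((Q'.P v).inertia Gal(QBar/K)).map φ).map G.subtype) = H38.ML.indG G := by
    intro φ hft hty v hvS hv
    obtain ⟨i, hi⟩ := hty v ((hRmQ φ v).2 ⟨hvS, hv⟩)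
    have h1 := esc_exp G hp hζ Q.cl hI L' φ hft v i hi
    rw [inr, dif_pos hvS, hL' v hvS] at h1
    exact h1
  have hdeq : ∀ φ φ' : Gal(QBar/K) →* G, Function.Surjective φ → FT φ → Function.Surjective φ' →
      FT φ' → TqT D'.S0 Q' (TG Q T) φ φ' → d φ = d φ' := by
    intro φ φ' h1 h2 h3 h4 h5
    refine hd2 φ φ' h1 h2 h3 h4 fun v hv => ?_
    obtain ⟨r, -, hr⟩ := h5 v hv
    exact ⟨r, hr⟩
  -- the constants
  have hex : ∀ φ₁ : Gal(QBar/K) →* G, ∃ e : ℕ, 0 < e ∧ ∀ φ, FT φ → Function.Surjective φ →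
      (∀ v, Rm L' φ v → ∃ i, TyC Q.cl L' φ i v) → TqT D'.S0 Q' (TG Q T) φ φ₁ → d φ = e := by
    intro φ₁
    by_cases h : ∃ φ₂ : Gal(QBar/K) →* G, FT φ₂ ∧ Function.Surjective φ₂ ∧
        (∀ v, Rm L' φ₂ v → ∃ i, TyC Q.cl L' φ₂ i v) ∧ TqT D'.S0 Q' (TG Q T) φ₂ φ₁
    · obtain ⟨φ₂, h1, h2, h0, h3⟩ := h
      exact ⟨d φ₂, (hd1 φ₂ h2 h1 (hdok φ₂ h1 h0)).1, fun φ h4 h5 _ h6 => hdeq φ φ₂ h5 h4 h2 h1
        (ht _ _ _ h6 (hs _ _ h3))⟩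
    · push Not at h
      exact ⟨1, one_pos, fun φ h4 h5 h0 h6 => absurd h6 (h φ h4 h5 h0)⟩
  choose e he0 he using hex
  -- the condition on the discriminant
  have hdisc : ∀ φ₁ φ : Gal(QBar/K) →* G, FT φ → Function.Surjective φ →
      (∀ v, Rm L' φ v → ∃ i, TyC Q.cl L' φ i v) → TqT D'.S0 Q' (TG Q T) φ φ₁ →
      ∀ B : ℝ, 0 ≤ B → ((H38.ML.relDisc K (fieldOf i₀ φ) : ℝ) ≤ B ↔
        φ ∈ SYT L' Q' Q.cl (TG Q T) φ₁ ((B / (e φ₁ : ℝ)) ^ (1 / (H38.ML.indG G : ℝ)))) := by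
    intro φ₁ φ h1 h2 hty h3 B hB
    have hfin : {v : Pl K | Rm L' φ v}.Finite := H63.BU.uinr_fin L' φ h1
    have hTf : ∀ v, v ∈ hfin.toFinset ↔ Rm L' φ v := by
      intro v
      rw [Set.Finite.mem_toFinset]
      rfl
    have h4 := (hd1 φ h2 h1 (hdok φ h1 hty)).2 hfin.toFinset
      (fun v => (hTf v).trans (hRmQ φ v))
    have hepos : (0 : ℝ) < (e φ₁ : ℝ) := by exact_mod_cast he0 φ₁
    have h5 : (H38.ML.relDisc K (fieldOf i₀ φ) : ℝ) =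
        (e φ₁ : ℝ) * (∏ v ∈ hfin.toFinset, (nm v : ℝ)) ^ H38.ML.indG G := by
      rw [h4, he φ₁ φ h1 h2 hty h3]
      push_cast
      rfl
    have hP0 : (0 : ℝ) ≤ ∏ v ∈ hfin.toFinset, (nm v : ℝ) :=
      Finset.prod_nonneg fun v _ => Nat.cast_nonneg _
    have h6 : (H38.ML.relDisc K (fieldOf i₀ φ) : ℝ) ≤ B ↔ ∏ v ∈ hfin.toFinset, (nm v : ℝ) ≤
        (B / (e φ₁ : ℝ)) ^ (1 / (H38.ML.indG G : ℝ)) := by
      rw [h5, mul_comm, ← le_div_iff₀ hepos, one_div, ← Real.rpow_natCast]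
      rw [Real.le_rpow_inv_iff_of_pos hP0 (div_nonneg hB hepos.le) haR]
    rw [h6]
    constructor
    · intro h7
      refine ⟨h1, h2, h3, fun v hv => ?_, fun X hX => ?_⟩
      · by_cases h : ∀ τ ∈ inr L' v, φ τ = 1
        · exact Or.inl h
        · push Not at h
          exact Or.inr (hty v ⟨hv, h⟩)
      · have hsub : X ⊆ hfin.toFinset := by
          intro v hv
          rw [hTf]
          obtain ⟨h8, h9⟩ := hX v hv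
          push Not at h9
          exact ⟨h8, h9⟩
        refine le_trans ?_ h7
        rw [← Finset.prod_sdiff hsub]
        exact le_mul_of_one_le_left (Finset.prod_nonneg fun v _ => Nat.cast_nonneg _)
          (one_le_nr _)
    · rintro ⟨-, -, -, -, h7⟩
      refine h7 hfin.toFinset fun v hv => ?_
      rw [hTf] at hv
      obtain ⟨h8, τ, hτ, h9⟩ := hv
      exact ⟨h8, fun h => h9 (h τ hτ)⟩
  -- the classes with the right behaviour at `S0'`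
  obtain ⟨RE, hRE⟩ : ∃ RE : Finset (Gal(QBar/K) →* G),
    RE = R.filter fun φ₁ => ∀ v ∈ D'.S0, (v ∈ E ↔ NeC Q.cl L φ₁ v) := ⟨_, rfl⟩
  have htyd : ∀ φ₁ φ : Gal(QBar/K) →* G, ∀ Y, φ ∈ SYT L' Q' Q.cl (TG Q T) φ₁ Y →
      ∀ v, Rm L' φ v → ∃ i, TyC Q.cl L' φ i v := by
    rintro φ₁ φ Y ⟨-, -, -, h4, -⟩ v ⟨hv, τ, hτ, h9⟩
    rcases h4 v hv with h | h
    · exact absurd (h τ hτ) h9
    · exact h
  have hcover : ∀ B : ℝ, 0 ≤ B → NE3 G K L Q.cl i₀ E B = ⋃ φ₁ ∈ RE,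
      SYT L' Q' Q.cl (TG Q T) φ₁ ((B / (e φ₁ : ℝ)) ^ (1 / (H38.ML.indG G : ℝ))) := by
    intro B hB
    ext φ
    simp only [Set.mem_iUnion, exists_prop]
    constructor
    · rintro ⟨h1, h2, h3, h4⟩
      obtain ⟨h5, h6⟩ := (esc_iff hp hζ hDD L L' Q' hLQ hL' Q.cl φ h1 E hED).1 h4
      obtain ⟨φ₂, h7, h8⟩ := hR2 φ h1 h5
      obtain ⟨φ₁, h9, h10⟩ := hR3 φ₂ h7
      have h11 := ht _ _ _ (tqt_teq (TG Q T) h8) h10
      refine ⟨φ₁, ?_, (hdisc φ₁ φ h1 h2 h5 h11 B hB).1 h3⟩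
      rw [hRE, Finset.mem_filter]
      refine ⟨h9, fun v hv => ?_⟩
      rw [h6 v hv, nec_tqt L Q' hLQ Q.cl D'.S0 (TG Q T) φ φ₁ h11 v hv]
    · rintro ⟨φ₁, h6, h7⟩
      rw [hRE] at h6
      obtain ⟨h8, h9⟩ := Finset.mem_filter.1 h6
      have hty := htyd φ₁ φ _ h7
      refine ⟨h7.1, h7.2.1, (hdisc φ₁ φ h7.1 h7.2.1 hty h7.2.2.1 B hB).2 h7, ?_⟩
      rw [esc_iff hp hζ hDD L L' Q' hLQ hL' Q.cl φ h7.1 E hED]
      refine ⟨hty, fun v hv => ?_⟩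
      rw [h9 v hv, nec_tqt L Q' hLQ Q.cl D'.S0 (TG Q T) φ φ₁ h7.2.2.1 v hv]
  have hfinX : ∀ φ₁ X, (SYT L' Q' Q.cl (TG Q T) φ₁ X : Set (Gal(QBar/K) →* G)).Finite := fun φ₁ X =>
    tsf hp hζ hz2 hnil Q hP T hU D' L' Q' z hz hS2 φ₁ X
  have hREm : ∀ φ₁ ∈ RE, φ₁ ∈ R := fun φ₁ h => by
    rw [hRE] at h
    exact (Finset.mem_filter.1 h).1
  refine ⟨fun B => ?_, ?_⟩
  · have h1 : NE3 G K L Q.cl i₀ E B ⊆ NE3 G K L Q.cl i₀ E (max B 0) := fun φ hφ =>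
      ⟨hφ.1, hφ.2.1, hφ.2.2.1.trans (le_max_left _ _), hφ.2.2.2⟩
    refine Set.Finite.subset ?_ h1
    rw [hcover _ (le_max_right _ _)]
    exact Set.Finite.biUnion (Finset.finite_toSet _) fun φ₁ _ => hfinX _ _
  · have hl : ∀ φ₁ : Gal(QBar/K) →* G, ∃ l : ℝ, φ₁ ∈ R → Tendsto (fun X : ℝ =>
        ((SYT L' Q' Q.cl (TG Q T) φ₁ X).ncard : ℝ) / (X * Real.log X ^ (N - 1))) atTop (𝓝 l) := by
      intro φ₁
      by_cases h : φ₁ ∈ R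
      · obtain ⟨l, hl⟩ := tsl hp hζ hz2 Q hP T hLm D' L' Q' hL' φ₁ (hR1 φ₁ (hRR h))
        exact ⟨l, fun _ => hl⟩
      · exact ⟨0, fun h' => absurd h' h⟩
    choose l hl using hl
    refine ⟨∑ φ₁ ∈ RE, l φ₁ * ((e φ₁ : ℝ) ^ (-(1 / (H38.ML.indG G : ℝ))) *
      (1 / (H38.ML.indG G : ℝ)) ^ (N - 1)), ?_⟩
    have hsum := tendsto_finsetSum RE fun φ₁ hφ₁ =>
      cfin_lim (fun X => ((SYT L' Q' Q.cl (TG Q T) φ₁ X).ncard : ℝ)) (l φ₁) (N - 1)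
        (hl φ₁ (hREm φ₁ hφ₁))
        (H38.ML.indG G : ℝ) haR (e φ₁ : ℝ) (by exact_mod_cast he0 φ₁)
    refine hsum.congr' ?_
    filter_upwards [eventually_ge_atTop 0] with B hB
    rw [← Finset.sum_div]
    congr 1
    rw [hcover B hB]
    have h1 : (⋃ φ₁ ∈ RE, SYT L' Q' Q.cl (TG Q T) φ₁ ((B / (e φ₁ : ℝ)) ^ (1 / (H38.ML.indG G : ℝ))) :
        Set (Gal(QBar/K) →* G)) = ((RE.biUnion fun φ₁ =>
          (hfinX φ₁ ((B / (e φ₁ : ℝ)) ^ (1 / (H38.ML.indG G : ℝ)))).toFinset :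
            Finset (Gal(QBar/K) →* G)) : Set (Gal(QBar/K) →* G)) := by
      rw [Finset.coe_biUnion]
      refine Set.iUnion₂_congr fun φ₁ _ => ?_
      rw [Set.Finite.coe_toFinset]
    rw [h1, Set.ncard_coe_finset, Finset.card_biUnion]
    · push_cast
      refine Finset.sum_congr rfl fun φ₁ _ => ?_
      rw [Set.ncard_eq_toFinset_card _ (hfinX φ₁ _)]
    · intro φ₁ h1 φ₂ h2 hne
      refine Finset.disjoint_left.2 fun φ hφ hφ' => ?_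
      rw [Set.Finite.mem_toFinset] at hφ hφ'
      exact hne (hR4 φ₁ (hREm φ₁ h1) φ₂ (hREm φ₂ h2)
        (ht _ _ _ (hs _ _ hφ.2.2.1) hφ'.2.2.1))

end H51.PF
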