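import Pool.Agent.H51.PF.Fra
import Pool.Agent.H51.PF.Espt

/-!
# H51-PF-FIT: the final theorem of stage 2 (MP_b39724_nt, all classes) from `PLvT p`

* `fin_limt`: the number of surjective homomorphisms. `plimT_of`: `PLim` implies `PLimT`.
* `asy_kt`: the asymptotic formula over one `K`. `fin_ns`: the final theorem NS, from `PLvT p`.
-/

set_option autoImplicit false

open scoped NumberField
open IsDedekindDomain Filter Topology H38.ML
open scoped Classical

noncomputable section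

namespace H51.PF

open H63.MA H38.BB H38.BG H57.PC H57.BRA H63.BU H77.PC3 H57.CC H38.AS H77.S0T H77.AB H77.GN
  H77.UX H77.FLD H77.PLF

section main

variable {n : ℕ} (G : Subgroup (Equiv.Perm (Fin n))) (K : IntermediateField ℚ QBar)
  [NumberField K]

/-- the number of surjective homomorphisms, types at `S0` up to conjugation by `T` (as fin_limx in H77/PLF/Fix.lean) -/
theorem fin_limt (hn : 2 ≤ n) (hG : MulAction.IsPretransitive G (Fin n))
    (hnil : Group.IsNilpotent G) {p : ℕ} [NeZero p] (hp : p.Prime) (hp2 : MOne p K) {ζ : K}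
    (hζ : IsPrimitiveRoot ζ p) {M : ℕ} {z₂ : K} (hz2 : IsPrimitiveRoot z₂ (p ^ M)) {N : ℕ}
    {P H : Type} [Group P] [Group H] (Q : GX p N G P H) (hP : IsPGroup p P)
    (T : Subgroup P) (hU : PUb p M Q.cP) (hLm : PLimT p M Q.cP T)
    (hI : ∀ h : G, (h ≠ 1 ∧ ind (h : Equiv.Perm (Fin n)) = indG G) ↔
      ∃ i, IsConj h (Q.cl.g i))
    (z : K) (hz : IsPrimitiveRoot z (Nat.card G)) (i₀ : Fin n) :
    (∀ B, (CfinS G K i₀ B).Finite) ∧ ∃ c : ℝ, Tendsto (fun B : ℝ =>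
      ((CfinS G K i₀ B).ncard : ℝ) / (B ^ (1 / (indG G : ℝ)) * Real.log B ^ (N - 1)))
        atTop (𝓝 c) := by
  have : Finite P := Finite.of_surjective _ Q.prs
  obtain ⟨ha, -, hmin, -, hJ⟩ := pidx_pos hn G hG
  have hfac : {v : Pl K | ((n.factorial : ℕ) : 𝓞 K) ∈ v.asIdeal}.Finite :=
    finite_above (K := K) (Nat.factorial_ne_zero n)
  obtain ⟨D, hD0⟩ := H38.BB.exists_RD_of K hp hp2 hζ hfac.toFinset
  have hD : ∀ v : Pl K, ((n.factorial : ℕ) : 𝓞 K) ∈ v.asIdeal → v ∈ D.S0 := fun v hv =>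
    hD0 v (by
      rw [Set.Finite.mem_toFinset]
      exact hv)
  have hS : ∀ v : Pl K, ((Nat.card G : ℕ) : 𝓞 K) ∈ v.asIdeal → v ∈ D.S0 := fun v hv => by
    apply hD v
    obtain ⟨k, hk⟩ := esp_dvd G
    rw [hk]
    push_cast
    exact Ideal.mul_mem_right _ _ hv
  obtain ⟨Q'⟩ := exists_DP K QBar
  obtain ⟨L, hLQ⟩ := lds_of hp hζ D.toRD0 Q'
  obtain ⟨⟨wt, hw1, hw2, hw3⟩, C, hC, hup⟩ := gux hp hζ hz2 D L hnil Q hP hU z hz hS (indG G) ha
    (fun H => n - orbs (H.map G.subtype))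
    (fun H hH => by
      have := hJ H hH
      omega)
    (fun g hg h => by
      refine (hI g).1 ⟨hg, le_antisymm ?_ (hmin g hg)⟩
      have h1 : (Subgroup.zpowers g).map G.subtype =
          Subgroup.zpowers (g : Equiv.Perm (Fin n)) := by
        rw [MonoidHom.map_zpowers]
        rfl
      rw [h1] at h
      exact h)
  -- the sets are finite
  have hfin : ∀ B, (CfinS G K i₀ B).Finite := by
    have h1 : ∀ B, 3 ≤ B → (CfinS G K i₀ B).Finite := by
      intro B hB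
      by_contra hinf
      obtain ⟨F, hF1, hF2⟩ := Set.Infinite.exists_subset_card_eq hinf
        (⌊C * (B ^ (1 / (indG G : ℝ)) * Real.log B ^ (N - 1))⌋₊ + 1)
      have h2 := hup B hB F (by
        intro φ hφ
        obtain ⟨h3, h4, h5⟩ := hF1 hφ
        exact ⟨h3, h4, fun T hT => (dsm_lo hn G hG K D.toRD0 L i₀ φ h4 h3 T hT).trans h5⟩)
      rw [hF2] at h2
      push_cast at h2
      have h3 := Nat.lt_floor_add_one (C * (B ^ (1 / (indG G : ℝ)) * Real.log B ^ (N - 1)))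
      linarith
    intro B
    refine (h1 (max B 3) (le_max_right _ _)).subset fun φ hφ =>
      ⟨hφ.1, hφ.2.1, hφ.2.2.trans (le_max_left _ _)⟩
  refine ⟨hfin, ?_⟩
  have hE := fun E => espt hn G hG hnil hp K hp2 hζ hz2 Q hP T hU hLm
    (fun h i hi => ((hI h).2 ⟨i, hi⟩).2) ha z hz D hD L Q' hLQ i₀ E
  choose hEf c hEc using hE
  have hdm : ∀ (B : ℝ) (E : Finset (Pl K)), 3 ≤ B →
      ((NE3 G K L Q.cl i₀ E B).ncard : ℝ) ≤
        wt E * (B ^ (1 / (indG G : ℝ)) * Real.log B ^ (N - 1)) := by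
    intro B E hB
    have h4 := hw3 B E hB (hEf E B).toFinset (by
      intro φ hφ
      rw [Set.Finite.mem_toFinset] at hφ
      obtain ⟨h5, h6, h7, h8⟩ := hφ
      exact ⟨h5, h6, fun T hT =>
        (dsm_lo hn G hG K D.toRD0 L i₀ φ h6 h5 T hT).trans h7, h8⟩)
    rw [Set.ncard_eq_toFinset_card _ (hEf E B)]
    exact h4
  -- the sum over `E`
  have hsum : ∀ B : ℝ, ((CfinS G K i₀ B).ncard : ℝ) =
      ∑' E : Finset (Pl K), ((NE3 G K L Q.cl i₀ E B).ncard : ℝ) := by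
    intro B
    have hex : ∀ φ : Gal(QBar/K) →* G, ∃ E : Finset (Pl K), FT φ →
        ∀ v, v ∈ E ↔ NeC Q.cl L φ v := by
      intro φ
      by_cases h : FT φ
      · have h5 : {v : Pl K | NeC Q.cl L φ v}.Finite :=
          (H63.BU.uinr_fin L φ h).subset fun v hv => hv.1
        refine ⟨h5.toFinset, fun _ v => ?_⟩
        rw [Set.Finite.mem_toFinset]
        rfl
      · exact ⟨∅, fun h' => absurd h' h⟩
    choose Ef hEf2 using hex
    have hNE : ∀ E, NE3 G K L Q.cl i₀ E B = {φ ∈ CfinS G K i₀ B | Ef φ = E} := by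
      intro E
      ext φ
      constructor
      · rintro ⟨h1, h2, h3, h4⟩
        refine ⟨⟨h1, h2, h3⟩, ?_⟩
        ext v
        rw [hEf2 φ h1 v, h4 v]
      · rintro ⟨⟨h1, h2, h3⟩, h4⟩
        refine ⟨h1, h2, h3, fun v => ?_⟩
        rw [← h4]
        exact hEf2 φ h1 v
    rw [tsum_eq_sum (s := (hfin B).toFinset.image Ef)]
    · rw [Set.ncard_eq_toFinset_card _ (hfin B), Finset.card_eq_sum_card_image Ef]
      push_cast
      refine Finset.sum_congr rfl fun E _ => ?_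
      congr 1
      rw [hNE E, ← Set.ncard_coe_finset]
      congr 1
      ext φ
      simp
    · intro E hE'
      rw [hNE E]
      have : {φ ∈ CfinS G K i₀ B | Ef φ = E} = ∅ := by
        rw [Set.eq_empty_iff_forall_notMem]
        rintro φ ⟨h1, h2⟩
        apply hE'
        rw [Finset.mem_image]
        exact ⟨φ, (hfin B).mem_toFinset.2 h1, h2⟩
      rw [this, Set.ncard_empty, Nat.cast_zero]
  refine ⟨∑' E, c E, ?_⟩
  have hdom := tendsto_tsum_of_dominated_convergence (𝓕 := (atTop : Filter ℝ))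
    (f := fun B E => ((NE3 G K L Q.cl i₀ E B).ncard : ℝ) /
      (B ^ (1 / (indG G : ℝ)) * Real.log B ^ (N - 1))) (g := c) (bound := wt) hw1
    (fun E => hEc E) (by
      filter_upwards [eventually_ge_atTop (3 : ℝ)] with B hB E
      have hlog : 0 < Real.log B := Real.log_pos (by linarith)
      have hP : 0 < B ^ (1 / (indG G : ℝ)) * Real.log B ^ (N - 1) :=
        mul_pos (Real.rpow_pos_of_pos (by linarith) _) (pow_pos hlog _)
      rw [Real.norm_of_nonneg (div_nonneg (Nat.cast_nonneg _) hP.le), div_le_iff₀ hP]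
      exact hdm B E hB)
  refine hdom.congr fun B => ?_
  rw [hsum B, tsum_div_const]

end main

/-- the asymptotic formula over one `K` -/
theorem asy_kt (n : ℕ) (hn : 2 ≤ n) (G : Subgroup (Equiv.Perm (Fin n)))
    (hG : MulAction.IsPretransitive G (Fin n)) (hnil : Group.IsNilpotent G) (p : ℕ)
    (hp : p.Prime) (S : Sylow p G) (M : ℕ) (hM : 2 ≤ M)
    (hPL : ∀ (N : ℕ) (c : CL p N S) (_ : 1 ≤ N)
      (_ : ∀ i, c.g i ∈ (Subgroup.closure (Li G)).subgroupOf (S : Subgroup G))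
      (_ : Ser c ((Subgroup.closure (Li G)).subgroupOf (S : Subgroup G))),
      PLimT p M c ((Subgroup.closure (Li G)).subgroupOf (S : Subgroup G)) ∧ PUb p M c ∧
        PPos2 p M c)
    (hser : SerG G p)
    (K : IntermediateField ℚ (AlgebraicClosure ℚ)) [hKf : NumberField K]
    (hρ : ∃ ρ : Gal(QBar/K) →* G, Function.Surjective ρ ∧ FT ρ)
    (hz : ∃ z : K, IsPrimitiveRoot z (Nat.card G)) (hz₂ : ∃ z : K, IsPrimitiveRoot z (p ^ M)) :
    Asy G K := by
  have : NeZero p := ⟨hp.ne_zero⟩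
  have : Fact p.Prime := ⟨hp⟩
  have hI : ∀ h : G, h ≠ 1 → ind (h : Equiv.Perm (Fin n)) = indG G → h ^ p = 1 := by
    intro h h0 hh
    exact li_pow hp hser h ⟨h0, hh⟩
  obtain ⟨ha, ⟨g₀, hg₀, hg₀'⟩, hmin, hcj, hJ⟩ := pidx_pos hn G hG
  obtain ⟨N, g, hgΛ, uni, hI'⟩ := ncl G {h : G | h ≠ 1 ∧ ind (h : Equiv.Perm (Fin n)) = indG G}
    (fun h hh => hh.1) (by
      rintro h ⟨h1, h2⟩ k hk
      refine ⟨?_, ?_⟩
      · intro hk1
        rw [hk1] at hk
        exact h1 (isConj_one_left.1 hk)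
      · obtain ⟨x, rfl⟩ := isConj_iff.1 hk
        exact hcj h x h1 h2)
  have hcardpos : 0 < Nat.card G := Nat.card_pos
  have hpd : p ∣ Nat.card G := by
    have h2 := hI g₀ hg₀ hg₀'
    have h3 : orderOf g₀ = p := orderOf_eq_prime h2 hg₀ (hp := ⟨hp⟩)
    rw [← h3]
    exact orderOf_dvd_natCard g₀
  have hSn := nil_normal hnil hp S
  have hTS := le_syl hp S hSn _ (serg_pgroup hser)
  have hgT : ∀ i, g i ∈ Subgroup.closure (Li G) := fun i => Subgroup.subset_closure (hgΛ i)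
  obtain ⟨Q, hQ, hQ'⟩ := exists_gx2 hp hnil hpd S g
    (fun i => hI _ (hgΛ i).1 (hgΛ i).2) (fun i => (hgΛ i).1) uni (fun i => hTS (hgT i))
  have hIQ : ∀ h : G, (h ≠ 1 ∧ ind (h : Equiv.Perm (Fin n)) = indG G) ↔
      ∃ i, IsConj h (Q.cl.g i) := by
    intro h
    rw [hQ]
    exact hI' h
  have hP : IsPGroup p S := S.isPGroup'
  have hco : Nat.Coprime (Nat.card S) (Nat.card (G ⧸ (S : Subgroup G))) := by
    have h5 := S.not_dvd_index
    rw [Subgroup.index] at h5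
    obtain ⟨k, hk⟩ := IsPGroup.iff_card.mp S.isPGroup'
    rw [hk]
    exact Nat.Coprime.pow_left k ((Nat.Prime.coprime_iff_not_dvd hp).2 h5)
  have hN : 1 ≤ N := by
    obtain ⟨i, -⟩ := (hI' g₀).1 ⟨hg₀, hg₀'⟩
    exact Nat.one_le_iff_ne_zero.2 fun h => by
      subst h
      exact i.elim0
  have hSer : Ser Q.cP ((Subgroup.closure (Li G)).subgroupOf (S : Subgroup G)) := by
    obtain ⟨r, B, h0, hr, hn, hs⟩ := hser
    have hle : ∀ j k, k + j = r → B k ≤ B r := by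
      intro j
      induction j with
      | zero =>
        intro k hk
        rw [show k = r by omega]
      | succ j ih =>
        intro k hk
        exact (hs k (by omega)).1.trans (ih (k + 1) (by omega))
    have hleS : ∀ k, k ≤ r → B k ≤ (S : Subgroup G) := fun k hk =>
      (hle (r - k) k (by omega)).trans (hr ▸ hTS)
    have hcard : ∀ k, k ≤ r → Nat.card ((B k).subgroupOf (S : Subgroup G)) = Nat.card (B k) :=
      fun k hk => Nat.card_congr (Subgroup.subgroupOfEquivOfLe (hleS k hk)).toEquiv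
    refine ⟨r, fun k => (B k).subgroupOf (S : Subgroup G), ?_, ?_, ?_, ?_⟩
    · show (B 0).subgroupOf (S : Subgroup G) = ⊥
      rw [h0, Subgroup.bot_subgroupOf]
    · show (B r).subgroupOf (S : Subgroup G) = _
      rw [hr]
    · intro k
      have := hn k
      exact Subgroup.normal_subgroupOf
    · intro k hk
      obtain ⟨h1, h2, h, hh, h3, h4⟩ := hs k hk
      refine ⟨fun x hx => h1 hx, ?_, ?_⟩
      · show Nat.card ((B (k + 1)).subgroupOf (S : Subgroup G)) =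
          p * Nat.card ((B k).subgroupOf (S : Subgroup G))
        rw [hcard k hk.le, hcard (k + 1) hk, h2]
      · obtain ⟨i, hi⟩ := (hI' h).1 hh
        obtain ⟨x, hx⟩ := isConj_iff.1 hi
        have hnk := hn k
        have hnk1 := hn (k + 1)
        refine ⟨i, ?_, ?_⟩
        · show Q.cP.g i ∈ (B (k + 1)).subgroupOf (S : Subgroup G)
          rw [Subgroup.mem_subgroupOf, hQ', ← hx]
          exact hnk1.conj_mem _ h3 _
        · show Q.cP.g i ∉ (B k).subgroupOf (S : Subgroup G)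
          rw [Subgroup.mem_subgroupOf, hQ', ← hx]
          intro h5
          apply h4
          have h6 := hnk.conj_mem _ h5 x⁻¹
          have h7 : x⁻¹ * (x * h * x⁻¹) * x⁻¹⁻¹ = h := by group
          rwa [h7] at h6
  have hcT : ∀ i, Q.cP.g i ∈ (Subgroup.closure (Li G)).subgroupOf (S : Subgroup G) := fun i => by
    rw [Subgroup.mem_subgroupOf, hQ']
    exact hgT i
  obtain ⟨hLm, hU, hPo⟩ := hPL N Q.cP hN hcT hSer
  obtain ⟨c₀, hc₀, hnk⟩ := nk2 G hG
  have i₀ : Fin n := ⟨0, by omega⟩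
  obtain ⟨φ₀, hs, hφ₀⟩ := hρ
  obtain ⟨z, hz⟩ := hz
  obtain ⟨z₂, hz2⟩ := hz₂
  have hp2 : MOne p K := mone_of hp hM hz2
  obtain ⟨r, hr⟩ := hpd
  have hζ : IsPrimitiveRoot (z ^ r) p := hz.pow hcardpos (by rw [hr]; ring)
  obtain ⟨c₁, B₀, hc₁, hlo⟩ := fin_lo2 G K hn hG hp hp2 hζ hz2 Q hco hPo hIQ φ₀ hs hφ₀
  obtain ⟨hfin, c, hcl⟩ := fin_limt G K hn hG hnil hp hp2 hζ hz2 Q hP _ hU hLm hIQ z hz i₀
  have hβ := lbet G K z hz g uni hI'
  have hk : ∀ B : ℝ, ∃ k : ℕ, Spec.nK K QBar G B = (k : ℕ∞) ∧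
      k * c₀ = (CfinS G K i₀ B).ncard := fun B => hnk K hKf i₀ B (hfin B)
  choose k hk1 hk2 using hk
  have hc₀R : (0 : ℝ) < (c₀ : ℝ) := by exact_mod_cast hc₀
  have hlim : Tendsto (fun B : ℝ => (k B : ℝ) /
        (B ^ (1 / (Spec.indG G : ℝ)) * Real.log B ^ (Spec.betaAll K QBar G - 1)))
        atTop (𝓝 (c / (c₀ : ℝ))) := by
    refine (hcl.div_const (c₀ : ℝ)).congr fun B => ?_
    rw [← hk2 B, hβ]
    push_cast
    have : H38.ML.indG G = Spec.indG G := rfl
    rw [this]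
    field_simp
  refine ⟨c / (c₀ : ℝ), ?_, k, hk1, hlim⟩
  refine lt_of_lt_of_le hc₁ (ge_of_tendsto hlim ?_)
  filter_upwards [eventually_ge_atTop B₀, eventually_gt_atTop 1] with B hB hB1
  have h1 := hlo B hB
  rw [show Spec.nK K (AlgebraicClosure ℚ) G B = (k B : ℕ∞) from hk1 B] at h1
  have h2 : (⌈c₁ * B ^ (1 / (indG G : ℝ)) * Real.log B ^ (N - 1)⌉₊ : ℕ) ≤ k B := by
    exact_mod_cast h1
  have h3 : c₁ * B ^ (1 / (indG G : ℝ)) * Real.log B ^ (N - 1) ≤ (k B : ℝ) :=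
    (Nat.le_ceil _).trans (by exact_mod_cast h2)
  rw [hβ]
  have hP : 0 < B ^ (1 / (Spec.indG G : ℝ)) * Real.log B ^ (N - 1) :=
    mul_pos (Real.rpow_pos_of_pos (by linarith) _) (pow_pos (Real.log_pos hB1) _)
  rw [le_div_iff₀ hP, ← mul_assoc]
  exact h3

/-- THEOREM NS (nilpotent groups, full series), from the P-level theorem -/
theorem fin_ns (n : ℕ) (hn : 2 ≤ n) (G : Subgroup (Equiv.Perm (Fin n)))
    (hG : MulAction.IsPretransitive G (Fin n)) (hnil : Group.IsNilpotent G) (p : ℕ)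
    (hp : p.Prime) (hPL : PLvT p) (hser : SerG G p) :
    ∃ K₀ : IntermediateField ℚ (AlgebraicClosure ℚ), NumberField K₀ ∧
      ∀ K : IntermediateField ℚ (AlgebraicClosure ℚ), K₀ ≤ K → ∀ _ : NumberField K, Asy G K := by
  have : Fact p.Prime := ⟨hp⟩
  have : NeZero p := ⟨hp.ne_zero⟩
  obtain ⟨S⟩ : Nonempty (Sylow p G) := inferInstance
  obtain ⟨M, hM, hPLS⟩ := hPL S S.isPGroup'
  obtain ⟨K₂, hK₂, hK⟩ := akn3 G p M
  refine ⟨K₂, hK₂, fun K hKK hKf => ?_⟩
  obtain ⟨hρ, hz, hz₂⟩ := hK K hKK hKf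
  exact asy_kt n hn G hG hnil p hp S M hM
    (fun N c hN hc hs => hPLS N c _ hN hc hs) hser K hρ hz hz₂

end H51.PF
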