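import Pool.Agent.H77.PLF.Defs

/-!
# H51-PF: frame over `K` for stage 2 (MP_b39724_nt, all classes), definitions

`P` a finite `p`-group of any exponent, `c : CL p N P` representatives of SOME conjugacy classes of elements of order `p`, `T` a normal subgroup.
* `Ser c T` (full series of `T`): normal subgroups `⊥ = B 0 < B 1 < ... < B r = T` of `P` with quotients of order `p`, every `B (i + 1) - B i` containing some `c.g j`
  (if all `c.g i` are in `T` then `T` is the normal closure of the `c.g i`).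
* `PPos2` (P): the lower bound `LBd` for all `D` such that some surjective homomorphism `Γ → P` of finite type is unramified outside `S0`.
* `PLt p`: `PLim` (L), `PUb` (U) (both as in H77/PLF) and `PPos2` (P) for the groups `P` with a full series (`T = P`), `M` depending on `P` only.
The P-level theorem `PLvT p` of stage 2 is in Tyt.lean.
-/

set_option autoImplicit false

open scoped NumberField
open IsDedekindDomain H38.ML Filter Topology
open scoped Classical

noncomputable section

namespace H51.PF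

open H63.MA H38.BB H38.BG H57.PC H57.BRA H63.BU H77.PC3 H57.CC H38.AS H77.S0T H77.FLD H77.PLF

/-- full series of `T` -/
def Ser {p N : ℕ} {P : Type} [Group P] (c : CL p N P) (T : Subgroup P) : Prop :=
  ∃ (r : ℕ) (B : ℕ → Subgroup P), B 0 = ⊥ ∧ B r = T ∧ (∀ i, (B i).Normal) ∧
    ∀ i, i < r → B i ≤ B (i + 1) ∧ Nat.card (B (i + 1)) = p * Nat.card (B i) ∧
      ∃ j, c.g j ∈ B (i + 1) ∧ c.g j ∉ B i

/-- (P) -/
def PPos2 (p M : ℕ) {N : ℕ} {P : Type} [Group P] (c : CL p N P) : Prop :=
  ∀ (K : IntermediateField ℚ QBar) [NumberField K] (ζ : K) (_ : IsPrimitiveRoot ζ p) (z : K)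
    (_ : IsPrimitiveRoot z (p ^ M)) (D : RD K p ζ) (L : LDs D.toRD0 QBar)
    (φ₀ : Gal(QBar/K) →* P) (_ : H38.ML.FT φ₀) (_ : Function.Surjective φ₀)
    (_ : ∀ v, v ∉ D.S0 → ∀ τ ∈ inr L v, φ₀ τ = 1), LBd L c.g

/-- the P-level theorem for `T = P`, exact types at `S0` -/
def PLt (p : ℕ) : Prop :=
  ∀ (P : Type) [Group P] [Finite P] (_ : IsPGroup p P),
    ∃ M : ℕ, 2 ≤ M ∧ ∀ (N : ℕ) (c : CL p N P) (_ : 1 ≤ N) (_ : Ser c ⊤),
      PLim p M c ∧ PUb p M c ∧ PPos2 p M c

end H51.PF
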