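import Pool.Agent.H51.PF.Fit

/-!
# H51-PF-EXT: exact types are enough

* `plimT_of`: `PLim` and `PUb` imply `PLimT`.
* `fin_asyt`: the final theorem if the Sylow `p`-subgroup is generated by the elements of least index, from `PLt p`.
-/

set_option autoImplicit false

open scoped NumberField
open IsDedekindDomain Filter Topology H38.ML
open scoped Classical

noncomputable section

namespace H51.PF

open H63.MA H38.BB H38.BG H57.PC H57.BRA H63.BU H77.PC3 H57.CC H38.AS H77.S0T H77.FLD H77.PLF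

theorem plimT_of {p M N : ℕ} [NeZero p] (hp : p.Prime) (hM : 2 ≤ M) {P : Type} [Group P]
    [Finite P] (hP : IsPGroup p P) (c : CL p N P) (T : Subgroup P) (hU : PUb p M c)
    (hL : PLim p M c) : PLimT p M c T := by
  intro K _ ζ hζ z hz D L Q hLQ φ₁ hφ₁
  obtain ⟨Rs, hR1, hR2⟩ := H77.WD.ty_fin hp (mone_of hp hM hz) hζ D.toRD0 L Q _ P rfl hP
  have hr : ∀ φ : Gal(QBar/K) →* P, Teq D.S0 Q φ φ := fun φ v _ σ _ => rfl
  have hs : ∀ φ φ' : Gal(QBar/K) →* P, Teq D.S0 Q φ φ' → Teq D.S0 Q φ' φ :=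
    fun φ φ' h v hv σ hσ => (h v hv σ hσ).symm
  have ht : ∀ φ φ' φ'' : Gal(QBar/K) →* P, Teq D.S0 Q φ φ' → Teq D.S0 Q φ' φ'' →
      Teq D.S0 Q φ φ'' := fun φ φ' φ'' h h' v hv σ hσ => (h v hv σ hσ).trans (h' v hv σ hσ)
  obtain ⟨R, hRR, hR3, hR4⟩ := cfin_reps (fun φ φ' : Gal(QBar/K) →* P => Teq D.S0 Q φ φ')
    hr hs ht Rs
  obtain ⟨RE, hRE⟩ : ∃ RE : Finset (Gal(QBar/K) →* P),
    RE = R.filter fun φ₂ => TqT D.S0 Q T φ₂ φ₁ := ⟨_, rfl⟩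
  have hREm : ∀ φ₂, φ₂ ∈ RE ↔ φ₂ ∈ R ∧ TqT D.S0 Q T φ₂ φ₁ := fun φ₂ => by
    rw [hRE, Finset.mem_filter]
  have hcover : ∀ Y : ℝ, SYT L Q c T φ₁ Y = ⋃ φ₂ ∈ RE, SYG L Q c φ₂ Y := by
    intro Y
    ext φ
    simp only [Set.mem_iUnion, exists_prop]
    constructor
    · rintro ⟨a1, a2, a3, a4, a5⟩
      obtain ⟨φ₃, b1, b2⟩ := hR2 φ a1
      obtain ⟨φ₂, b3, b4⟩ := hR3 φ₃ b1
      have b5 := ht _ _ _ b2 b4
      exact ⟨φ₂, (hREm φ₂).2 ⟨b3, tqt_trans (tqt_symm (tqt_teq T b5)) a3⟩, a1, a2, b5, a4, a5⟩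
    · rintro ⟨φ₂, b1, a1, a2, a3, a4, a5⟩
      exact ⟨a1, a2, tqt_trans (tqt_teq T a3) ((hREm φ₂).1 b1).2, a4, a5⟩
  have hfin : ∀ φ₂ Y, (SYG L Q c φ₂ Y : Set (Gal(QBar/K) →* P)).Finite := fun φ₂ Y =>
    (pu_fin hζ hz hU D L Y).subset (syg_sub L Q c φ₂ Y)
  have hl : ∀ φ₂ : Gal(QBar/K) →* P, ∃ l : ℝ, φ₂ ∈ RE → Tendsto (fun Y : ℝ =>
      ((SYG L Q c φ₂ Y).ncard : ℝ) / (Y * Real.log Y ^ (N - 1))) atTop (𝓝 l) := by
    intro φ₂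
    by_cases h : φ₂ ∈ RE
    · obtain ⟨l, hl⟩ := hL K ζ hζ z hz D L Q hLQ φ₂ (hR1 φ₂ (hRR ((hREm φ₂).1 h).1))
      exact ⟨l, fun _ => hl⟩
    · exact ⟨0, fun h' => absurd h' h⟩
  choose l hl using hl
  refine ⟨∑ φ₂ ∈ RE, l φ₂, ?_⟩
  have hsum := tendsto_finsetSum RE fun φ₂ h => hl φ₂ h
  refine hsum.congr fun Y => ?_
  rw [← Finset.sum_div]
  congr 1
  rw [hcover Y]
  have h1 : (⋃ φ₂ ∈ RE, SYG L Q c φ₂ Y : Set (Gal(QBar/K) →* P)) =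
      ((RE.biUnion fun φ₂ => (hfin φ₂ Y).toFinset : Finset (Gal(QBar/K) →* P)) :
        Set (Gal(QBar/K) →* P)) := by
    rw [Finset.coe_biUnion]
    refine Set.iUnion₂_congr fun φ₂ _ => ?_
    rw [Set.Finite.coe_toFinset]
  rw [h1, Set.ncard_coe_finset, Finset.card_biUnion]
  · push_cast
    refine Finset.sum_congr rfl fun φ₂ _ => ?_
    rw [Set.ncard_eq_toFinset_card _ (hfin φ₂ _)]
  · intro φ₂ h1 φ₃ h2 hne
    refine Finset.disjoint_left.2 fun φ hφ hφ' => ?_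
    rw [Set.Finite.mem_toFinset] at hφ hφ'
    exact hne (hR4 φ₂ ((hREm φ₂).1 h1).1 φ₃ ((hREm φ₃).1 h2).1
      (ht _ _ _ (hs _ _ hφ.2.2.1) hφ'.2.2.1))

/-- the asymptotic formula, Sylow `p`-subgroup generated by the elements of least index, exact types -/
theorem fin_asyt (n : ℕ) (hn : 2 ≤ n) (G : Subgroup (Equiv.Perm (Fin n)))
    (hG : MulAction.IsPretransitive G (Fin n)) (hnil : Group.IsNilpotent G) (p : ℕ)
    (hp : p.Prime) (hPL : PLt p) (hser : SerG G p) (S : Sylow p G)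
    (hS : Subgroup.closure (Li G) = (S : Subgroup G)) :
    ∃ K₀ : IntermediateField ℚ (AlgebraicClosure ℚ), NumberField K₀ ∧
      ∀ K : IntermediateField ℚ (AlgebraicClosure ℚ), K₀ ≤ K → ∀ _ : NumberField K, Asy G K := by
  have : Fact p.Prime := ⟨hp⟩
  have : NeZero p := ⟨hp.ne_zero⟩
  obtain ⟨M, hM, hPLS⟩ := hPL S S.isPGroup'
  obtain ⟨K₂, hK₂, hK⟩ := akn3 G p M
  refine ⟨K₂, hK₂, fun K hKK hKf => ?_⟩
  obtain ⟨hρ, hz, hz₂⟩ := hK K hKK hKf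
  refine asy_kt n hn G hG hnil p hp S M hM (fun N c hN _ hs => ?_) hser K hρ hz hz₂
  have hT : (Subgroup.closure (Li G)).subgroupOf (S : Subgroup G) = ⊤ := by
    rw [hS]
    exact Subgroup.subgroupOf_self _
  rw [hT] at hs ⊢
  obtain ⟨h1, h2, h3⟩ := hPLS N c hN hs
  exact ⟨plimT_of hp hM S.isPGroup' c ⊤ h2 h1, h2, h3⟩

end H51.PF
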